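import Pool.Agent.R779.FJ.Ports

/-!
# Negative K-groups of group rings over regular rings: extensions by halos over labelled graphs

`C` is any class of groups with the closure properties `ClosedE C`, all of which are known for the
class of the groups that satisfy the K-theoretic Farrell–Jones conjecture with coefficients and
finite wreath products; for the torsion-free groups in that class the negative K-groups of the group
rings over regular rings vanish.

A halo is a functor from labelled graphs and embeddings to groups and injective homomorphisms such
that every element comes from a finite subgraph. Examples are the Coxeter groups `W(S, m)` (the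
labels are the orders), graph products with vertex groups given by the labels of the vertices, and,
for one label, direct sums, free products, verbal products of copies of a group, and the groups of
the finitary invertible matrices over a ring.

If the values of the halo on finite labelled graphs are in `C` then every group `G` with a normal
subgroup `N` which is the value of the halo on some labelled graph `(V, ℓ)` of any cardinality is in
`C`, when `G ⧸ N` is in `C` and every element of `G` acts on `N` through an automorphism of `(V, ℓ)`
up to an inner automorphism of `N`. The extension need not split. So for the torsion-free subgroups
of `G` the negative K-groups of the group rings over regular rings vanish.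

Outline of the proof. By the extension criterion it is enough to consider `N ⋊ ℤ`. This is a
directed colimit of HNN extensions of the values of the halo on finite labelled graphs, along the
isomorphisms given by partial isomorphisms of finite labelled graphs. Such a partial isomorphism is
induced by an automorphism of a finite larger labelled graph (Hrushovski), so the HNN extension has
a homomorphism which is injective on the base to a finite extension of a group in `C`, and its
kernel is permutationally free.
-/

set_option autoImplicit false

namespace Pool.Agent.Results.MP_28303a_al.HaloExtensions

open Pool.Agent.Y110.FJ Pool.Agent.R779.FJ Pool.Agent.R779.FJ.Ports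

theorem result (C : ∀ (G : Type) [Group G], Prop) (hC : ClosedE C)
    (hS : ∀ (Γ : Type) [Group Γ], TorsionFree Γ → C Γ →
      ∀ (R : Type) [Ring R], RegularRing R → ∀ n : ℕ, 1 ≤ n → Subsingleton (KN n R Γ))
    (L : Type) (hL : Nonempty L) (H : Halo L) (hfin : FinIn C H)
    (V : Type) (ℓ : V → V → L) (hℓ : ∀ x y, ℓ x y = ℓ y x)
    (G : Type) [Group G] (N : Subgroup G) [N.Normal] (e : H.obj V ℓ ≃* N) (hQ : C (G ⧸ N))
    (hact : ActsByHalo H ℓ N e) :
    C G ∧ ∀ (Γ : Type) [Group Γ], TorsionFree Γ →
      ∀ j : Γ →* G, Function.Injective j →
        ∀ (R : Type) [Ring R], RegularRing R → ∀ n : ℕ, 1 ≤ n → Subsingleton (KN n R Γ) := by
  have h1 : C G := thmA C hC L hL H hfin V ℓ hℓ G N e hQ hact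
  exact ⟨h1, fun Γ _ hΓ j hj => hS Γ hΓ (hC.base.of_injective _ _ j hj h1)⟩

end Pool.Agent.Results.MP_28303a_al.HaloExtensions
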